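import Mathlib

set_option autoImplicit false
set_option linter.unusedSectionVars false

open Topology Filter

namespace Pool.Agent.Results.MP_24a371_gt.NotTransitive

/-- A sequence in an abelian group is a T-sequence if some Hausdorff group topology makes it
converge to `0`. -/
def IsTSequence {G : Type} [AddCommGroup G] (v : ℕ → G) : Prop :=
  ∃ τ : TopologicalSpace G, @IsTopologicalAddGroup G τ _ ∧ @T2Space G τ ∧
    Tendsto v atTop (@nhds G τ 0)

/-- For subgroups `H ≤ Y` of a topological abelian group: `H` is T-characterized in `Y` (with the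
subspace topology), i.e. `H = {y ∈ Y : v_n(y) → 0}` for a sequence of continuous characters of `Y`
that is a T-sequence in the abstract dual group of `Y`. -/
def TCharacterizedIn {X : Type} [AddCommGroup X] [TopologicalSpace X] [IsTopologicalAddGroup X]
    (H Y : AddSubgroup X) : Prop :=
  H ≤ Y ∧ ∃ v : ℕ → (Y →ₜ+ UnitAddCircle), IsTSequence v ∧
    ∀ y : Y, (y : X) ∈ H ↔ Tendsto (fun n => v n y) atTop (𝓝 0)

/-- For subgroups `H ≤ Y`: every continuous character of `H` extends to one of `Y`. -/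
def DuallyEmbeddedIn {X : Type} [AddCommGroup X] [TopologicalSpace X] [IsTopologicalAddGroup X]
    (H Y : AddSubgroup X) : Prop :=
  ∀ χ : H →ₜ+ UnitAddCircle, ∃ ψ : Y →ₜ+ UnitAddCircle,
    ∀ (x : X) (hx : x ∈ H) (hy : x ∈ Y), ψ ⟨x, hy⟩ = χ ⟨x, hx⟩

section general

variable {Y : Type} [AddCommGroup Y] [TopologicalSpace Y] [IsTopologicalAddGroup Y]

lemma finite_supp (χ : Y →ₜ+ UnitAddCircle) (e : ℕ → Y) (he2 : ∀ n, 2 • e n = 0)
    (he : Tendsto e atTop (𝓝 0)) : (Function.support fun n => χ (e n)).Finite := by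
  have hfin : ({y : UnitAddCircle | 2 • y = 0} \ {0}).Finite :=
    (AddCircle.finite_torsion (p := (1 : ℝ)) (n := 2) (by norm_num)).subset Set.sdiff_subset
  have hU : ({y : UnitAddCircle | 2 • y = 0} \ {0})ᶜ ∈ 𝓝 (0 : UnitAddCircle) :=
    hfin.isClosed.isOpen_compl.mem_nhds (by simp)
  have h1 : Tendsto (fun n => χ (e n)) atTop (𝓝 0) := by
    have := (χ.continuous_toFun.tendsto 0).comp he
    rw [show χ.toFun 0 = 0 from map_zero χ] at this
    exact this
  have h2 : ∀ᶠ n in atTop, χ (e n) = 0 := by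
    filter_upwards [h1 hU] with n hn
    by_contra h0
    apply hn
    refine ⟨?_, h0⟩
    show 2 • χ (e n) = 0
    rw [← map_nsmul, he2, map_zero]
  rw [← Nat.cofinite_eq_atTop] at h2
  exact h2

lemma isTSequence_of_injective {G E : Type} [AddCommGroup G] [AddCommGroup E]
    [TopologicalSpace E] [IsTopologicalAddGroup E] [T2Space E] (Φ : G →+ E)
    (hΦ : Function.Injective Φ) (v : ℕ → G) (hv : Tendsto (fun n => Φ (v n)) atTop (𝓝 0)) :
    IsTSequence v := by
  refine ⟨TopologicalSpace.induced Φ inferInstance, topologicalAddGroup_induced Φ, ?_, ?_⟩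
  · exact @T2Space.of_injective_continuous G E (TopologicalSpace.induced Φ inferInstance) _ _ Φ hΦ
      continuous_induced_dom
  · rw [nhds_induced, tendsto_comap_iff, map_zero]
    exact hv

lemma tseq (e : ℕ → Y) (he2 : ∀ n, 2 • e n = 0) (he : Tendsto e atTop (𝓝 0)) (y : Y)
    (v : ℕ → (Y →ₜ+ UnitAddCircle)) (D : Set Y)
    (hD : ∀ d ∈ D, Tendsto (fun n => v n d) atTop (𝓝 0))
    (hve : ∀ n, v n y + v n (e n) = 0) (hvem : ∀ n m, m ≠ n → v n (e m) = 0)
    (hsep : ∀ χ : Y →ₜ+ UnitAddCircle, (∀ d ∈ D, χ d = 0) → χ y + ∑ᶠ n, χ (e n) = 0 → χ = 0) :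
    IsTSequence v := by
  let ψ : (Y →ₜ+ UnitAddCircle) →+ UnitAddCircle :=
    { toFun := fun χ => χ y + ∑ᶠ n, χ (e n)
      map_zero' := by
        have : ∀ z : Y, (0 : Y →ₜ+ UnitAddCircle) z = 0 := fun _ => rfl
        simp [this]
      map_add' := by
        intro χ χ'
        have : ∀ z : Y, (χ + χ') z = χ z + χ' z := fun _ => rfl
        simp only [this]
        rw [finsum_add_distrib (finite_supp χ e he2 he) (finite_supp χ' e he2 he)]
        abel }
  let Φ : (Y →ₜ+ UnitAddCircle) →+ (D → UnitAddCircle) × UnitAddCircle :=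
    { toFun := fun χ => (fun d => χ d, ψ χ)
      map_zero' := by
        refine Prod.ext ?_ (map_zero ψ)
        rfl
      map_add' := by
        intro χ χ'
        refine Prod.ext ?_ (map_add ψ χ χ')
        rfl }
  refine isTSequence_of_injective Φ ?_ v ?_
  · rw [injective_iff_map_eq_zero]
    intro χ hχ
    have h1 : (fun d : D => χ d) = 0 := congrArg Prod.fst hχ
    have h2 : ψ χ = 0 := congrArg Prod.snd hχ
    exact hsep χ (fun d hd => congrFun h1 ⟨d, hd⟩) h2
  · have h0 : (0 : (D → UnitAddCircle) × UnitAddCircle) = ((fun _ => 0), 0) := rfl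
    rw [h0]
    refine Tendsto.prodMk_nhds ?_ ?_
    · rw [tendsto_pi_nhds]
      intro d
      exact hD d d.2
    · have : ∀ n, ψ (v n) = 0 := by
        intro n
        show v n y + ∑ᶠ m, v n (e m) = 0
        rw [finsum_eq_single (fun m => v n (e m)) n (fun m hm => hvem n m hm)]
        exact hve n
      show Tendsto (fun n => ψ (v n)) atTop (𝓝 0)
      simp only [this]
      exact tendsto_const_nhds

end general

/-- The sequences in `ZMod 2` which are eventually zero. -/
def H0 : AddSubgroup (ℕ → ZMod 2) where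
  carrier := {f | ∀ᶠ n in atTop, f n = 0}
  zero_mem' := by simp
  add_mem' := by
    intro a b ha hb
    filter_upwards [ha, hb] with n h1 h2
    simp [h1, h2]
  neg_mem' := by
    intro a ha
    filter_upwards [ha] with n h1
    simp [h1]

abbrev XX := H0 × ZMod 4

/-- `X₁`: second coordinate in `{0, 2}` -/
def X1 : AddSubgroup XX where
  carrier := {x | 2 * x.2 = 0}
  zero_mem' := by simp
  add_mem' := by
    intro a b ha hb
    have ha' : 2 * a.2 = 0 := ha
    have hb' : 2 * b.2 = 0 := hb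
    show 2 * (a.2 + b.2) = 0
    rw [mul_add, ha', hb', add_zero]
  neg_mem' := by
    intro a ha
    have ha' : 2 * a.2 = 0 := ha
    show 2 * (-a.2) = 0
    rw [mul_neg, ha', neg_zero]

/-- `X₀`: second coordinate `0` -/
def X0 : AddSubgroup XX := (AddMonoidHom.snd H0 (ZMod 4)).ker

lemma mem_X0 (x : XX) : x ∈ X0 ↔ x.2 = 0 := Iff.rfl
lemma mem_X1 (x : XX) : x ∈ X1 ↔ 2 * x.2 = 0 := Iff.rfl

lemma cont2 : Continuous (ZMod.toAddCircle : ZMod 2 → UnitAddCircle) :=
  continuous_of_discreteTopology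
lemma cont4 : Continuous (ZMod.toAddCircle : ZMod 4 → UnitAddCircle) :=
  continuous_of_discreteTopology

/-- coordinate characters on `XX` -/
noncomputable def fch (n : ℕ) : XX →ₜ+ UnitAddCircle where
  toFun x := ZMod.toAddCircle (x.1.1 n)
  map_zero' := by simp
  map_add' := by intro a b; simp
  continuous_toFun := by
    refine cont2.comp ((continuous_apply n).comp ?_)
    exact continuous_subtype_val.comp continuous_fst

/-- the faithful character of `ZMod 4` -/
noncomputable def zch : XX →ₜ+ UnitAddCircle where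
  toFun x := ZMod.toAddCircle x.2
  map_zero' := by simp
  map_add' := by intro a b; simp
  continuous_toFun := cont4.comp continuous_snd

lemma fch_apply (n : ℕ) (x : XX) : fch n x = ZMod.toAddCircle (x.1.1 n) := rfl
lemma zch_apply (x : XX) : zch x = ZMod.toAddCircle x.2 := rfl

/-- inclusion of a subgroup as a continuous homomorphism -/
def incl (Y : AddSubgroup XX) : Y →ₜ+ XX where
  toFun y := y
  map_zero' := rfl
  map_add' _ _ := rfl
  continuous_toFun := continuous_subtype_val

lemma single_mem (n : ℕ) : (Pi.single n (1 : ZMod 2) : ℕ → ZMod 2) ∈ H0 := by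
  show ∀ᶠ m in atTop, (Pi.single n (1 : ZMod 2) : ℕ → ZMod 2) m = 0
  filter_upwards [eventually_gt_atTop n] with m hm
  exact Pi.single_eq_of_ne hm.ne' _

/-- the unit vectors of `H0` -/
def eH (n : ℕ) : H0 := ⟨Pi.single n 1, single_mem n⟩

lemma tendsto_eH : Tendsto eH atTop (𝓝 0) := by
  rw [tendsto_subtype_rng, tendsto_pi_nhds]
  intro m
  refine tendsto_const_nhds.congr' ?_
  filter_upwards [eventually_gt_atTop m] with n hn
  show (0 : ZMod 2) = (Pi.single n (1 : ZMod 2) : ℕ → ZMod 2) m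
  rw [Pi.single_eq_of_ne hn.ne]

lemma two_H0 (h : H0) : 2 • h = 0 := by
  apply Subtype.ext
  funext n
  show 2 • (h.1 n) = 0
  have : ∀ t : ZMod 2, 2 • t = 0 := by decide
  exact this _

lemma add_self_H0 (h : H0) : h + h = 0 := by rw [← two_nsmul, two_H0]

lemma eH_self (n : ℕ) : (eH n).1 n = 1 := Pi.single_eq_same _ _
lemma eH_ne {n m : ℕ} (h : m ≠ n) : (eH m).1 n = 0 := Pi.single_eq_of_ne (Ne.symm h) _

lemma fch_tendsto (x : XX) : Tendsto (fun n => fch n x) atTop (𝓝 0) := by
  have hx : ∀ᶠ n in atTop, x.1.1 n = 0 := x.1.2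
  refine tendsto_const_nhds.congr' ?_
  filter_upwards [hx] with n hn
  rw [fch_apply, hn, map_zero]

lemma toAddCircle_two_four : (ZMod.toAddCircle (2 : ZMod 4) : UnitAddCircle) +
    ZMod.toAddCircle (1 : ZMod 2) = 0 := by
  have h1 : (ZMod.toAddCircle (2 : ZMod 4) : UnitAddCircle) = ((2 / 4 : ℝ) : UnitAddCircle) := by
    have := ZMod.toAddCircle_natCast (N := 4) 2
    simpa using this
  have h2 : (ZMod.toAddCircle (1 : ZMod 2) : UnitAddCircle) = ((1 / 2 : ℝ) : UnitAddCircle) := by
    have := ZMod.toAddCircle_natCast (N := 2) 1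
    simpa using this
  rw [h1, h2, ← AddCircle.coe_add]
  have : (2 / 4 + 1 / 2 : ℝ) = 1 := by norm_num
  rw [this]
  exact AddCircle.coe_period 1

/-! ### `X₁` is T-characterized in `XX` -/

lemma char_eq (Y : AddSubgroup XX) (χ : Y →ₜ+ UnitAddCircle) (x y : Y) (h : x = y) :
    χ x = χ y := by rw [h]

lemma tchar_X1 : TCharacterizedIn X1 (⊤ : AddSubgroup XX) := by
  refine ⟨le_top, fun n => (zch + zch + fch n).comp (incl ⊤), ?_, ?_⟩
  · refine tseq (fun n => ⟨(eH n, 0), trivial⟩) ?_ ?_ ⟨(0, 1), trivial⟩ _ {x | 2 * x.1.2 = 0} ?_ ?_ ?_ ?_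
    · intro n
      apply Subtype.ext
      refine Prod.ext (two_H0 _) ?_
      show 2 • (0 : ZMod 4) = 0
      simp
    · rw [tendsto_subtype_rng]
      exact tendsto_eH.prodMk_nhds tendsto_const_nhds
    · intro d hd
      have hd' : 2 * d.1.2 = 0 := hd
      have h1 : ∀ n, ((zch + zch + fch n).comp (incl ⊤)) d = fch n d.1 := by
        intro n
        show ZMod.toAddCircle d.1.2 + ZMod.toAddCircle d.1.2 + fch n d.1 = fch n d.1
        rw [← map_add, ← two_mul, hd', map_zero, zero_add]
      simp only [h1]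
      exact fch_tendsto _
    · intro n
      show ZMod.toAddCircle (1 : ZMod 4) + ZMod.toAddCircle (1 : ZMod 4) +
        ZMod.toAddCircle (0 : ZMod 2) + (ZMod.toAddCircle (0 : ZMod 4) +
        ZMod.toAddCircle (0 : ZMod 4) + ZMod.toAddCircle ((eH n).1 n)) = 0
      rw [eH_self, map_zero, map_zero, add_zero, add_zero, zero_add, ← map_add]
      exact toAddCircle_two_four
    · intro n m hm
      show ZMod.toAddCircle (0 : ZMod 4) +
        ZMod.toAddCircle (0 : ZMod 4) + ZMod.toAddCircle ((eH m).1 n) = 0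
      rw [eH_ne hm, map_zero, map_zero, add_zero, add_zero]
    · intro χ h1 h2
      have h3 : ∀ n, χ ⟨(eH n, 0), trivial⟩ = 0 := fun n => h1 _ (by
        show 2 * (0 : ZMod 4) = 0
        simp)
      simp only [h3, finsum_zero, add_zero] at h2
      ext x
      show χ x = 0
      have hx : x = ⟨(x.1.1, 0), trivial⟩ + x.1.2.val • (⟨(0, 1), trivial⟩ : (⊤ : AddSubgroup XX)) := by
        apply Subtype.ext
        refine Prod.ext ?_ ?_
        · show x.1.1 = x.1.1 + x.1.2.val • (0 : H0)
          simp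
        · show x.1.2 = 0 + x.1.2.val • (1 : ZMod 4)
          simp
      rw [hx, map_add, map_nsmul, h2, smul_zero, add_zero]
      exact h1 _ (by
        show 2 * (0 : ZMod 4) = 0
        simp)
  · intro y
    have h1 : Tendsto (fun n => ((zch + zch + fch n).comp (incl ⊤)) y) atTop
        (𝓝 (ZMod.toAddCircle y.1.2 + ZMod.toAddCircle y.1.2)) := by
      have := (tendsto_const_nhds (x := ZMod.toAddCircle y.1.2 + ZMod.toAddCircle y.1.2)).add
        (fch_tendsto y.1)
      rw [add_zero] at this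
      exact this
    constructor
    · intro hy
      have hy' : 2 * y.1.2 = 0 := hy
      have h2 : ZMod.toAddCircle y.1.2 + ZMod.toAddCircle y.1.2 = 0 := by
        rw [← map_add, ← two_mul, hy', map_zero]
      rw [h2] at h1
      exact h1
    · intro h
      have h2 := tendsto_nhds_unique h1 h
      rw [← map_add, ← two_mul, ZMod.toAddCircle_eq_zero] at h2
      exact h2

/-! ### `X₀` is T-characterized in `X₁` -/

lemma mem1 (h : H0) : ((h, 0) : XX) ∈ X1 := by
  rw [mem_X1]; simp

lemma mem2 : ((0, 2) : XX) ∈ X1 := by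
  rw [mem_X1]; decide

lemma val_cases (t : ZMod 4) (h : 2 * t = 0) : t = 0 ∨ t = 2 := by
  revert t; decide

lemma tchar_X0 : TCharacterizedIn X0 X1 := by
  refine ⟨?_, fun n => (zch + fch n).comp (incl X1), ?_, ?_⟩
  · intro x hx
    rw [mem_X0] at hx
    rw [mem_X1, hx, mul_zero]
  · refine tseq (fun n => ⟨(eH n, 0), mem1 _⟩) ?_ ?_ ⟨(0, 2), mem2⟩ _ {x | x.1.2 = 0} ?_ ?_ ?_ ?_
    · intro n
      apply Subtype.ext
      refine Prod.ext (two_H0 _) ?_
      show 2 • (0 : ZMod 4) = 0
      simp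
    · rw [tendsto_subtype_rng]
      exact tendsto_eH.prodMk_nhds tendsto_const_nhds
    · intro d hd
      have hd' : d.1.2 = 0 := hd
      have h1 : ∀ n, ((zch + fch n).comp (incl X1)) d = fch n d.1 := by
        intro n
        show ZMod.toAddCircle d.1.2 + fch n d.1 = fch n d.1
        rw [hd', map_zero, zero_add]
      simp only [h1]
      exact fch_tendsto _
    · intro n
      show ZMod.toAddCircle (2 : ZMod 4) + ZMod.toAddCircle (0 : ZMod 2) +
        (ZMod.toAddCircle (0 : ZMod 4) + ZMod.toAddCircle ((eH n).1 n)) = 0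
      rw [eH_self, map_zero, map_zero, add_zero, zero_add]
      exact toAddCircle_two_four
    · intro n m hm
      show ZMod.toAddCircle (0 : ZMod 4) + ZMod.toAddCircle ((eH m).1 n) = 0
      rw [eH_ne hm, map_zero, map_zero, add_zero]
    · intro χ h1 h2
      have h3 : ∀ n, χ ⟨(eH n, 0), mem1 _⟩ = 0 := fun n => h1 _ rfl
      simp only [h3, finsum_zero, add_zero] at h2
      ext x
      show χ x = 0
      obtain ⟨⟨h, t⟩, hx⟩ := x
      have ht : 2 * t = 0 := hx
      rcases val_cases t ht with rfl | rfl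
      · exact h1 _ rfl
      · have hx' : (⟨(h, 2), hx⟩ : X1) = ⟨(h, 0), mem1 h⟩ + ⟨(0, 2), mem2⟩ := by
          apply Subtype.ext
          refine Prod.ext ?_ ?_
          · show h = h + 0
            simp
          · show (2 : ZMod 4) = 0 + 2
            simp
        rw [hx', map_add, h2, add_zero]
        exact h1 _ rfl
  · intro y
    have h1 : Tendsto (fun n => ((zch + fch n).comp (incl X1)) y) atTop
        (𝓝 (ZMod.toAddCircle y.1.2)) := by
      have := (tendsto_const_nhds (x := ZMod.toAddCircle y.1.2)).add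
        (fch_tendsto y.1)
      rw [add_zero] at this
      exact this
    constructor
    · intro hy
      have hy' : y.1.2 = 0 := hy
      rw [hy', map_zero] at h1
      exact h1
    · intro h
      have h2 := tendsto_nhds_unique h1 h
      rw [ZMod.toAddCircle_eq_zero] at h2
      exact h2

/-! ### dual embedding -/

lemma two_tor (y : UnitAddCircle) (h : 2 • y = 0) : y = 0 ∨ y = ZMod.toAddCircle (2 : ZMod 4) := by
  obtain ⟨m, hm, hy⟩ := (AddCircle.nsmul_eq_zero_iff (p := (1 : ℝ)) (n := 2) (by norm_num)).1 h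
  have h1 : (ZMod.toAddCircle (2 : ZMod 4) : UnitAddCircle) = ((2 / 4 : ℝ) : UnitAddCircle) := by
    have := ZMod.toAddCircle_natCast (N := 4) 2
    simpa using this
  interval_cases m
  · left; rw [← hy]; simp
  · right; rw [← hy, h1]; congr 1; norm_num

lemma dual_X1 : DuallyEmbeddedIn X1 (⊤ : AddSubgroup XX) := by
  intro χ
  have hχ2 : 2 • χ ⟨(0, 2), mem2⟩ = 0 := by
    rw [← map_nsmul]
    have : 2 • (⟨(0, 2), mem2⟩ : X1) = 0 := by
      apply Subtype.ext
      refine Prod.ext ?_ ?_
      · show 2 • (0 : H0) = 0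
        simp
      · show 2 • (2 : ZMod 4) = 0
        decide
    rw [this, map_zero]
  let ψ0 : (⊤ : AddSubgroup XX) →ₜ+ UnitAddCircle :=
    { toFun := fun x => χ ⟨(x.1.1, 0), mem1 _⟩
      map_zero' := map_zero χ
      map_add' := by
        intro x y
        rw [← map_add]
        congr 1
      continuous_toFun := by
        refine χ.continuous_toFun.comp (Continuous.subtype_mk ?_ _)
        exact (continuous_fst.comp continuous_subtype_val).prodMk continuous_const }
  have key : ∀ (ψ : (⊤ : AddSubgroup XX) →ₜ+ UnitAddCircle),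
      (∀ h : H0, ψ ⟨(h, 0), trivial⟩ = χ ⟨(h, 0), mem1 h⟩) →
      ψ ⟨(0, 2), trivial⟩ = χ ⟨(0, 2), mem2⟩ →
      ∀ (x : XX) (hx : x ∈ X1) (hy : x ∈ (⊤ : AddSubgroup XX)), ψ ⟨x, hy⟩ = χ ⟨x, hx⟩ := by
    intro ψ h1 h2 x hx hy
    obtain ⟨h, t⟩ := x
    rcases val_cases t hx with rfl | rfl
    · exact h1 h
    · have hx' : (⟨(h, 2), hx⟩ : X1) = ⟨(h, 0), mem1 h⟩ + ⟨(0, 2), mem2⟩ := by
        apply Subtype.ext
        refine Prod.ext ?_ ?_
        · show h = h + 0
          simp
        · show (2 : ZMod 4) = 0 + 2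
          simp
      have hy' : (⟨(h, 2), hy⟩ : (⊤ : AddSubgroup XX)) = ⟨(h, 0), trivial⟩ + ⟨(0, 2), trivial⟩ := by
        apply Subtype.ext
        refine Prod.ext ?_ ?_
        · show h = h + 0
          simp
        · show (2 : ZMod 4) = 0 + 2
          simp
      rw [hx', hy', map_add, map_add, h1, h2]
  rcases two_tor _ hχ2 with h | h
  · refine ⟨ψ0, key ψ0 (fun _ => rfl) ?_⟩
    rw [h]
    show χ ⟨(0, 0), mem1 0⟩ = 0
    exact map_zero χ
  · refine ⟨ψ0 + zch.comp (incl ⊤), key _ ?_ ?_⟩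
    · intro h'
      show χ ⟨(h', 0), mem1 h'⟩ + ZMod.toAddCircle (0 : ZMod 4) = _
      rw [map_zero, add_zero]
    · rw [h]
      show χ ⟨(0, 0), mem1 0⟩ + ZMod.toAddCircle (2 : ZMod 4) = _
      have : χ ⟨(0, 0), mem1 0⟩ = 0 := map_zero χ
      rw [this, zero_add]

/-! ### `X₀` is not T-characterized in `XX` -/

lemma two_app (w : (⊤ : AddSubgroup XX) →ₜ+ UnitAddCircle) (x : (⊤ : AddSubgroup XX)) :
    (2 • w) x = 2 • w x := by
  rw [two_nsmul, two_nsmul]
  rfl

lemma not_tchar : ¬ TCharacterizedIn X0 (⊤ : AddSubgroup XX) := by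
  rintro ⟨-, v, ⟨τ, h1, h2, hv⟩, hvH⟩
  let _ := τ
  have _ := h1
  have _ := h2
  let z : (⊤ : AddSubgroup XX) := ⟨(0, 1), trivial⟩
  have h2v : Tendsto (fun n => 2 • v n) atTop (𝓝 0) := by
    have := hv.const_smul 2
    simpa using this
  have h4z : 4 • z = 0 := by
    apply Subtype.ext
    refine Prod.ext ?_ ?_
    · show 4 • (0 : H0) = 0
      simp
    · show 4 • (1 : ZMod 4) = 0
      decide
  have key : ∀ n, ∀ x : (⊤ : AddSubgroup XX), (2 • v n) x = (x.1.2.val) • ((2 • v n) z) := by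
    intro n x
    have hx : x = ⟨(x.1.1, 0), trivial⟩ + x.1.2.val • z := by
      apply Subtype.ext
      refine Prod.ext ?_ ?_
      · show x.1.1 = x.1.1 + x.1.2.val • (0 : H0)
        simp
      · show x.1.2 = 0 + x.1.2.val • (1 : ZMod 4)
        simp
    have hz : (2 • v n) ⟨(x.1.1, 0), trivial⟩ = 0 := by
      rw [two_app, ← map_nsmul]
      have h0 : 2 • (⟨(x.1.1, 0), trivial⟩ : (⊤ : AddSubgroup XX)) = 0 := by
        apply Subtype.ext
        exact Prod.ext (two_H0 _) (smul_zero 2)
      rw [h0, map_zero]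
    conv_lhs => rw [hx, map_add, map_nsmul, hz, zero_add]
  have hfin : (Set.range fun n => 2 • v n).Finite := by
    have hinj : Set.InjOn (fun χ : (⊤ : AddSubgroup XX) →ₜ+ UnitAddCircle => χ z)
        (Set.range fun n => 2 • v n) := by
      rintro _ ⟨n, rfl⟩ _ ⟨m, rfl⟩ h
      ext x
      show (2 • v n) x = (2 • v m) x
      rw [key n x, key m x]
      have h' : (2 • v n) z = (2 • v m) z := h
      rw [h']
    refine Set.Finite.of_finite_image ?_ hinj
    refine (AddCircle.finite_torsion (p := (1 : ℝ)) (n := 4) (by norm_num)).subset ?_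
    rintro _ ⟨_, ⟨n, rfl⟩, rfl⟩
    show 4 • ((2 • v n) z) = 0
    rw [← map_nsmul, h4z, map_zero]
  have hev : ∀ᶠ n in atTop, 2 • v n = 0 := by
    have hcl : IsClosed ((Set.range fun n => 2 • v n) \ {0}) :=
      (hfin.subset Set.sdiff_subset).isClosed
    have hmem : ((Set.range fun n => 2 • v n) \ {0})ᶜ ∈ 𝓝 (0 : (⊤ : AddSubgroup XX) →ₜ+ UnitAddCircle) :=
      hcl.isOpen_compl.mem_nhds (by simp)
    filter_upwards [h2v hmem] with n hn
    by_contra hne
    exact hn ⟨⟨n, rfl⟩, hne⟩
  have hmem : ((2 • z : (⊤ : AddSubgroup XX)) : XX) ∈ X0 := by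
    rw [hvH]
    refine tendsto_const_nhds.congr' ?_
    filter_upwards [hev] with n hn
    have h3 := DFunLike.congr_fun hn z
    rw [two_app] at h3
    rw [map_nsmul]
    exact h3.symm
  have hmem' : (2 • (1 : ZMod 4)) = 0 := hmem
  exact absurd hmem' (by decide)

/-- Transitivity fails: there are a topological abelian group `X` and subgroups
`X₀ ≤ X₁ ≤ X₂` with `X₁` dually embedded in `X₂`, `X₀` T-characterized in `X₁`, `X₁`
T-characterized in `X₂`, but `X₀` not T-characterized in `X₂`. -/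
theorem result :
    ∃ (X : Type) (_ : AddCommGroup X) (_ : TopologicalSpace X) (_ : IsTopologicalAddGroup X)
      (X₀ X₁ X₂ : AddSubgroup X), T2Space X ∧ X₀ ≤ X₁ ∧ X₁ ≤ X₂ ∧ DuallyEmbeddedIn X₁ X₂ ∧
        TCharacterizedIn X₀ X₁ ∧ TCharacterizedIn X₁ X₂ ∧ ¬ TCharacterizedIn X₀ X₂ :=
  ⟨XX, inferInstance, inferInstance, inferInstance, X0, X1, ⊤, inferInstance, tchar_X0.1, le_top,
    dual_X1, tchar_X0, tchar_X1, not_tchar⟩

end Pool.Agent.Results.MP_24a371_gt.NotTransitive
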